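import Pool.Agent.Work.MP_5e120e_nt.Fin.Final

/-! # Numbers with Lagrange value 3 in a real cubic field -/

namespace Pool.Agent.Results.MP_5e120e_nt.CubicFields

/-- The Lagrange value of `x`: the supremum (in `[-∞, ∞]`) of the real numbers `c > 0` such that
`|x - p/q| < 1/(c q^2)` has infinitely many rational solutions `p/q` (written in lowest terms). -/
noncomputable def lagrangeValue (x : ℝ) : EReal :=
  sSup {t : EReal | ∃ c : ℝ, 0 < c ∧
    {r : ℚ | |x - r| < 1 / (c * (r.den : ℝ) ^ 2)}.Infinite ∧ t = (c : EReal)}

/-- Let `K` be a real cubic field. There is a finite set `F` of real numbers such that every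
irrational element of `K` with Lagrange value at most `3` is the image of an element of `F` under an
integral matrix of determinant `1`. -/
theorem result (K : IntermediateField ℚ ℝ) (hK : Module.finrank ℚ K = 3) :
    ∃ F : Finset ℝ, ∀ y : ℝ, y ∈ K → Irrational y → lagrangeValue y ≤ ((3 : ℝ) : EReal) →
      ∃ z ∈ F, ∃ p q r s : ℤ, p * s - q * r = 1 ∧ y = (p * z + q) / (r * z + s) := by
  obtain ⟨F, hF⟩ := Pool.Agent.L3.cubic_finite Pool.Agent.L3.mainH K hK
  exact ⟨F, fun y hy hi hk => hF y hy hi hk⟩

end Pool.Agent.Results.MP_5e120e_nt.CubicFields
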