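import Pool.Agent.Work.MP_5e120e_nt.Fin.Largest

/-! # Lagrange value 3 and primitive matrices: the determinant is the square of a divisor of a
Markov number, with a uniform gap -/

namespace Pool.Agent.Results.MP_5e120e_nt.MarkovGap

/-- The Lagrange value of `x`: the supremum (in `[-∞, ∞]`) of the real numbers `c > 0` such that
`|x - p/q| < 1/(c q^2)` has infinitely many rational solutions `p/q` (written in lowest terms). -/
noncomputable def lagrangeValue (x : ℝ) : EReal :=
  sSup {t : EReal | ∃ c : ℝ, 0 < c ∧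
    {r : ℚ | |x - r| < 1 / (c * (r.den : ℝ) ^ 2)}.Infinite ∧ t = (c : EReal)}

/-- `x` is a root of a quadratic polynomial with integral coefficients. -/
def IsQuadratic (x : ℝ) : Prop :=
  ∃ A B C : ℤ, A ≠ 0 ∧ (A : ℝ) * x ^ 2 + B * x + C = 0

/-- `m` is the largest coordinate of a solution of `a ^ 2 + b ^ 2 + m ^ 2 = 3 a b m` in positive
integers. -/
def IsMarkovNumber (m : ℕ) : Prop :=
  ∃ a b : ℕ, 0 < a ∧ a ≤ m ∧ 0 < b ∧ b ≤ m ∧ a ^ 2 + b ^ 2 + m ^ 2 = 3 * a * b * m

/-- If the positive integer `n` is not the square of a divisor of a Markov number, there is `δ > 0`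
such that for every irrational number `x` which is not quadratic and every integral matrix of
determinant `± n` whose entries have no common divisor, one of `x` and its image under the matrix
has Lagrange value at least `3 + δ`. -/
theorem result (n : ℕ) (hn : 0 < n) (h : ∀ m t : ℕ, IsMarkovNumber m → t ∣ m → n ≠ t ^ 2) :
    ∃ δ : ℝ, 0 < δ ∧ ∀ x : ℝ, Irrational x → ¬ IsQuadratic x → ∀ a b c d : ℤ,
      Nat.gcd (Int.gcd a b) (Int.gcd c d) = 1 → |a * d - b * c| = n →
      ((3 + δ : ℝ) : EReal) ≤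
        max (lagrangeValue x) (lagrangeValue ((a * x + b) / (c * x + d))) := by
  obtain ⟨δ, hδ, hmain⟩ := Pool.Agent.L3.main_unif n hn.ne' (by
    rintro ⟨t, M, hM, ht, hnt⟩
    obtain ⟨m, a, b, rfl, h1, h2, h3, h4, h5⟩ := hM.nat
    exact h m t ⟨a, b, h1, h2, h3, h4, h5⟩ (by exact_mod_cast ht) hnt)
  exact ⟨δ, hδ, fun x hx hq a b c d hg hd =>
    hmain x hx hq a b c d (Pool.Agent.L3.prim_of_gcd hg) hd⟩

end Pool.Agent.Results.MP_5e120e_nt.MarkovGap
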