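import Pool.Agent.Work.MP_5e120e_nt.Fin.Final

/-! # Numbers with Lagrange value 3 in one `GL₂(ℚ)`-orbit -/

namespace Pool.Agent.Results.MP_5e120e_nt.OrbitMarkov

/-- The Lagrange value of `x`: the supremum (in `[-∞, ∞]`) of the real numbers `c > 0` such that
`|x - p/q| < 1/(c q^2)` has infinitely many rational solutions `p/q` (written in lowest terms). -/
noncomputable def lagrangeValue (x : ℝ) : EReal :=
  sSup {t : EReal | ∃ c : ℝ, 0 < c ∧
    {r : ℚ | |x - r| < 1 / (c * (r.den : ℝ) ^ 2)}.Infinite ∧ t = (c : EReal)}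

/-- `x` is a root of a quadratic polynomial with integral coefficients. -/
def IsQuadratic (x : ℝ) : Prop :=
  ∃ A B C : ℤ, A ≠ 0 ∧ (A : ℝ) * x ^ 2 + B * x + C = 0

/-- `m` is the largest coordinate of a solution of `a ^ 2 + b ^ 2 + m ^ 2 = 3 a b m` in positive
integers. -/
def IsMarkovNumber (m : ℕ) : Prop :=
  ∃ a b : ℕ, 0 < a ∧ a ≤ m ∧ 0 < b ∧ b ≤ m ∧ a ^ 2 + b ^ 2 + m ^ 2 = 3 * a * b * m

/-- Let `x` be irrational, not quadratic, with Lagrange value at most `3`. There are a Markov number
`m` and a finite set `F` such that whenever the image `y` of `x` under an integral matrix of nonzero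
determinant, whose entries have no common divisor, has Lagrange value at most `3`, then the
absolute value of the determinant is the square of a divisor of `m`, and `y` is the image of an
element of `F` under an integral matrix of determinant `1`. -/
theorem result (x : ℝ) (hx : Irrational x) (hq : ¬ IsQuadratic x)
    (hk : lagrangeValue x ≤ ((3 : ℝ) : EReal)) : ∃ m : ℕ, IsMarkovNumber m ∧
      ∃ F : Finset ℝ, ∀ a b c d : ℤ, Nat.gcd (Int.gcd a b) (Int.gcd c d) = 1 →
        a * d - b * c ≠ 0 → lagrangeValue ((a * x + b) / (c * x + d)) ≤ ((3 : ℝ) : EReal) →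
        (∃ t : ℕ, t ∣ m ∧ |a * d - b * c| = (t : ℤ) ^ 2) ∧
        ∃ z ∈ F, ∃ p q r s : ℤ, p * s - q * r = 1 ∧
          (a * x + b) / (c * x + d) = (p * z + q) / (r * z + s) :=
  Pool.Agent.L3.orbit_markov hx hq hk

end Pool.Agent.Results.MP_5e120e_nt.OrbitMarkov
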